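import Pool.Agent.N557.BP.Stm

/-!
Project BP (helper557), part V1: the values of the slices at a vertex form a measurable function
(helper31).
-/

set_option autoImplicit false

namespace Pool.Agent.N31.BP

open Complex Set MeasureTheory Filter Topology Pool.Agent.W780.PG Pool.Agent.W780.BB
  Pool.Agent.TH103.BL Pool.Agent.N557.BP

open scoped Real ComplexConjugate

theorem alg {V I L ε : ℝ} (hV : 0 < V) (hε : 0 < ε) (h : ‖I - V * L‖ ≤ ε / 2 * V) :
    ‖V⁻¹ * I - L‖ < ε := by
  have e : V⁻¹ * I - L = V⁻¹ * (I - V * L) := by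
    field_simp
  rw [e, norm_mul, Real.norm_eq_abs, abs_of_pos (inv_pos.2 hV)]
  calc V⁻¹ * ‖I - V * L‖ ≤ V⁻¹ * (ε / 2 * V) := mul_le_mul_of_nonneg_left h (inv_pos.2 hV).le
    _ = ε / 2 := by field_simp
    _ < ε := by linarith

theorem t_v1 : S_V1 := by
  intro n p hp f hf hI _ i
  have hrr := region_eq hp
  have hopen := reg_open hp
  -- the sets close to the vertex
  obtain ⟨R, hR⟩ : ∃ R : ℕ → Set ℂ, ∀ m, R m = reg p ∩ Metric.ball (p i) (1 / ((m : ℝ) + 1)) :=
    ⟨_, fun _ => rfl⟩
  have hRo : ∀ m, IsOpen (R m) := fun m => by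
    rw [hR]
    exact hopen.inter Metric.isOpen_ball
  have hRne : ∀ m, (R m).Nonempty := fun m => by
    obtain ⟨z, hz, hzr⟩ := near_vertex hp i (show (0 : ℝ) < 1 / ((m : ℝ) + 1) by positivity)
    rw [hR]
    exact ⟨z, hz, by rwa [mem_ball_iff_norm]⟩
  have hRfin : ∀ m, (volume : Measure ℂ) (R m) < ⊤ := fun m => by
    rw [hR]
    exact (measure_mono inter_subset_right).trans_lt measure_ball_lt_top
  have hRpos : ∀ m, 0 < (volume : Measure ℂ).real (R m) := fun m =>
    ENNReal.toReal_pos ((hRo m).measure_pos volume (hRne m)).ne' (hRfin m).ne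
  -- the averages
  obtain ⟨h, hh⟩ : ∃ h : ℕ → ℝ → ℝ, ∀ m θ, h m θ =
      ((volume : Measure ℂ).real (R m))⁻¹ * ∫ z in R m, Real.arctan (f (z, θ)) :=
    ⟨_, fun _ _ => rfl⟩
  have hhm : ∀ m, Measurable (h m) := fun m => by
    have e : h m = fun θ => ((volume : Measure ℂ).real (R m))⁻¹ *
        ∫ z in R m, Real.arctan (f (z, θ)) := funext (hh m)
    rw [e]
    have hm : Measurable (Function.uncurry fun (z : ℂ) (θ : ℝ) => Real.arctan (f (z, θ))) :=
      Real.measurable_arctan.comp hf
    exact (hm.stronglyMeasurable.integral_prod_left (μ := (volume : Measure ℂ).restrict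
      (R m))).measurable.const_mul _
  have hhp : ∀ m θ, h m (θ + 2 * π) = h m θ := fun m θ => by
    rw [hh, hh]
    simp only [hI.periodic]
  have htan : Measurable Real.tan := by
    have : Real.tan = fun x => Real.sin x / Real.cos x := funext Real.tan_eq_sin_div_cos
    rw [this]
    exact Real.measurable_sin.div Real.measurable_cos
  refine ⟨fun θ => Real.tan (limsup (fun m => h m θ) atTop), htan.comp (Measurable.limsup hhm),
    fun θ => by simp only [hhp], Eventually.of_forall fun θ G hG => ?_⟩
  obtain ⟨hGc, hGe⟩ := hG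
  have hlim : Tendsto (fun m => h m θ) atTop (𝓝 (Real.arctan (G (p i)))) := by
    rw [Metric.tendsto_atTop]
    intro ε hε
    have hc : ContinuousAt (fun z => Real.arctan (G z)) (p i) :=
      (Real.continuous_arctan.comp hGc).continuousAt
    obtain ⟨δ, hδ, hδ'⟩ := Metric.continuousAt_iff.1 hc (ε / 2) (by positivity)
    obtain ⟨N, hN⟩ := exists_nat_one_div_lt hδ
    refine ⟨N, fun m hm => ?_⟩
    have hmN : 1 / ((m : ℝ) + 1) < δ := by
      refine lt_of_le_of_lt ?_ hN
      apply one_div_le_one_div_of_le (by positivity)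
      have : (N : ℝ) ≤ m := by exact_mod_cast hm
      linarith
    have hint : IntegrableOn (fun z => Real.arctan (f (z, θ))) (R m) volume := by
      have hmz : Measurable fun z : ℂ => Real.arctan (f (z, θ)) :=
        Real.measurable_arctan.comp (hf.comp (measurable_id.prodMk measurable_const))
      refine Measure.integrableOn_of_bounded (hRfin m).ne hmz.aestronglyMeasurable (M := π / 2) ?_
      refine Eventually.of_forall fun z => ?_
      rw [Real.norm_eq_abs, abs_le]
      exact ⟨by linarith [Real.neg_pi_div_two_lt_arctan (f (z, θ))],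
        (Real.arctan_lt_pi_div_two (f (z, θ))).le⟩
    have hconst : IntegrableOn (fun _ : ℂ => Real.arctan (G (p i))) (R m) volume :=
      integrableOn_const (hRfin m).ne
    have hbd : ‖∫ z in R m, (Real.arctan (f (z, θ)) - Real.arctan (G (p i)))‖ ≤
        ε / 2 * (volume : Measure ℂ).real (R m) := by
      refine norm_setIntegral_le_of_norm_le_const_ae' (hRfin m) ?_
      filter_upwards [hGe] with z hz hzR
      rw [hR] at hzR
      have hzr : z ∈ region p := by rw [hrr]; exact hzR.1
      rw [hz hzr, ← dist_eq_norm]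
      exact (hδ' (lt_trans (Metric.mem_ball.1 hzR.2) hmN)).le
    rw [integral_sub hint hconst, setIntegral_const, smul_eq_mul] at hbd
    rw [dist_eq_norm, hh]
    exact alg (hRpos m) hε hbd
  show G (p i) = Real.tan (limsup (fun m => h m θ) atTop)
  rw [hlim.limsup_eq, Real.tan_arctan]

end Pool.Agent.N31.BP
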